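import Pool.Agent.Helper35.PQF.St

set_option autoImplicit false

/-! Project PQF (MP_d112a4_gt), module QF: assembly. -/

namespace Pool.Agent.Helper89.PM

open Pool.Agent.Helper35.PM

theorem qf (hs2 : St_HS2) (fo : St_FO) (cl : St_CL) (gr2 : St_GR2) (en : St_EN) : St_QF := by
  intro g hg ρ hρ
  obtain ⟨hfin, C, hC, hub⟩ := cl (SurfaceGroup g) ρ hρ.discrete hρ.cocompact
  obtain ⟨c, T₀, hc, hlb⟩ := gr2 g hg ρ hfin
  obtain ⟨e1, e2, e3, e4, e5⟩ := en (SurfaceGroup g) ρ c C T₀ hc hC hlb hub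
  refine ⟨hfin, e1, e2, e3, e4, fun γ => ⟨?_, ?_⟩, e5⟩
  · exact fo (SurfaceGroup g) ρ hρ.discrete hρ.cocompact γ
  · rintro ⟨n, hn, h⟩
    apply hs2.2.2.2.2.2 (ρ γ) n hn
    rw [← map_pow, h, map_one]

end Pool.Agent.Helper89.PM
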